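import Pool.Agent.Run7.h479.XX.Mult

/-!
# The geometric Breuil–Mézard conjecture: one component and few Hodge types at a time

Let `W` be the finite set of the Serre weights, which also index the irreducible components, and `T` the set of
the regular tuples `t = λ` of labelled Hodge–Tate weights. A cycle is a function `W → ℤ`. There is a set `F₀` of at most `|W|` elements of `T`, which
depends on the numbers `n_t(σ)` only, such that:

* Q1 holds if and only if for every component `c` and every set of at most `|W| + 1` elements `t` of `T` there are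
  integers `μ_σ`, which may depend on the component and on the set, such that the multiplicity of `c` in `Z_t` is
  `∑_σ n_t(σ) μ_σ` for the elements `t` of the set; the sets `F₀ ∪ {t}` are enough;
* with effective cycles the same holds with `μ_σ ≥ 0` for `F₀` and `μ_σ` of any sign for `F₀ ∪ {t}`;
* if Q1 holds, all cycles `Z_σ` with the identities for `F₀` have them for all `t`.

So Q1 is a question on one component and `|W| + 1` elements of `T` at a time.
-/

set_option autoImplicit false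

namespace Pool.Agent.Results.MP_4c60d4_nt.FewWeightsAtATime

variable {T W : Type} [Fintype W]

/-- The cycles `z_σ` satisfy the identity `Z_t = ∑_σ n_t(σ) z_σ`. Cycles are functions on the set of the
components, which are indexed by the Serre weights. -/
def Holds (n : T → W → ℕ) (Z : T → W → ℤ) (z : W → W → ℤ) (t : T) : Prop :=
  ∀ c, Z t c = ∑ σ, (n t σ : ℤ) * z σ c

/-- The integers `μ_σ` satisfy the identity for the multiplicities of the component `c`. -/
def HoldsAt (n : T → W → ℕ) (Z : T → W → ℤ) (c : W) (μ : W → ℤ) (t : T) : Prop :=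
  Z t c = ∑ σ, (n t σ : ℤ) * μ σ

/-- **Theorem.** Let `W` be a finite set (the Serre weights, which also index the components), `T` any set and `n_t(σ)`
non-negative integers. There is a set `F₀` of at most `|W|` elements of `T`, which depends on `n` only, such that for
all cycles `Z_t`, `t ∈ T`:

* there are cycles `z_σ` with the identity for all `t ∈ T` if and only if for every component `c` and every set of at
  most `|W| + 1` elements of `T` there are integers `μ_σ`, depending on `c` and the set, with the identity for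
  the multiplicities of `c` and the elements of the set; the sets `F₀ ∪ {t}`, `t ∈ T`, are enough;
* the same for effective cycles `z_σ` and `μ_σ ≥ 0`; here non-negative `μ_σ` for `F₀` and `μ_σ` of any sign for the sets
  `F₀ ∪ {t}` are enough;
* if there are cycles `z_σ` with the identity for all `t ∈ T`, then all cycles with the identity for `t ∈ F₀` have it
  for all `t ∈ T`. -/
theorem result (n : T → W → ℕ) : ∃ F₀ : Finset T, F₀.card ≤ Fintype.card W ∧ ∀ Z : T → W → ℤ,
    ((∃ z : W → W → ℤ, ∀ t, Holds n Z z t) ↔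
      ∀ (c : W) (F : Finset T), F.card ≤ Fintype.card W + 1 →
        ∃ μ : W → ℤ, ∀ t ∈ F, HoldsAt n Z c μ t) ∧
    ((∃ z : W → W → ℤ, ∀ t, Holds n Z z t) ↔
      (∀ c, ∃ μ : W → ℤ, ∀ s ∈ F₀, HoldsAt n Z c μ s) ∧
        ∀ (c : W) (t : T), ∃ μ : W → ℤ, (∀ s ∈ F₀, HoldsAt n Z c μ s) ∧ HoldsAt n Z c μ t) ∧
    ((∃ z : W → W → ℤ, (∀ σ c, 0 ≤ z σ c) ∧ ∀ t, Holds n Z z t) ↔
      (∀ c, ∃ μ : W → ℤ, (∀ σ, 0 ≤ μ σ) ∧ ∀ s ∈ F₀, HoldsAt n Z c μ s) ∧
        ∀ (c : W) (t : T), ∃ μ : W → ℤ, (∀ s ∈ F₀, HoldsAt n Z c μ s) ∧ HoldsAt n Z c μ t) ∧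
    ((∃ z : W → W → ℤ, ∀ t, Holds n Z z t) → ∀ z : W → W → ℤ, (∀ t ∈ F₀, Holds n Z z t) →
      ∀ t, Holds n Z z t) := by
  classical
  obtain ⟨F₀, hF₀, hc⟩ := Run7.h479.XX.Mult.exists_spanning n
  refine ⟨F₀, hF₀, fun Z => ?_⟩
  have tr : ∀ (c : W) (μ μ' : W → ℤ) (t : T), (∀ s ∈ F₀, HoldsAt n Z c μ s) →
      (∀ s ∈ F₀, HoldsAt n Z c μ' s) → HoldsAt n Z c μ' t → HoldsAt n Z c μ t := by
    intro c μ μ' t h h' ht
    obtain ⟨a, ha⟩ := hc t
    exact Run7.h479.XX.Mult.transfer (e := fun s => Z s c) ha h h' ht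
  have h1 : (∃ z : W → W → ℤ, ∀ t, Holds n Z z t) ↔
      (∀ c, ∃ μ : W → ℤ, ∀ s ∈ F₀, HoldsAt n Z c μ s) ∧
        ∀ (c : W) (t : T), ∃ μ : W → ℤ, (∀ s ∈ F₀, HoldsAt n Z c μ s) ∧ HoldsAt n Z c μ t := by
    constructor
    · rintro ⟨z, h⟩
      exact ⟨fun c => ⟨fun σ => z σ c, fun s _ => h s c⟩,
        fun c t => ⟨fun σ => z σ c, fun s _ => h s c, h t c⟩⟩
    · rintro ⟨h, h'⟩
      choose μ hμ using h
      refine ⟨fun σ c => μ c σ, fun t c => ?_⟩
      obtain ⟨μ', h2, h3⟩ := h' c t
      exact tr c (μ c) μ' t (hμ c) h2 h3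
  refine ⟨?_, h1, ?_, ?_⟩
  · constructor
    · rintro ⟨z, h⟩ c F _
      exact ⟨fun σ => z σ c, fun t _ => h t c⟩
    · intro h
      rw [h1]
      refine ⟨fun c => h c F₀ (by omega), fun c t => ?_⟩
      obtain ⟨μ, h2⟩ := h c (insert t F₀) ((Finset.card_insert_le _ _).trans (by omega))
      exact ⟨μ, fun s hs => h2 s (Finset.mem_insert_of_mem hs), h2 t (Finset.mem_insert_self _ _)⟩
  · constructor
    · rintro ⟨z, hz, h⟩
      exact ⟨fun c => ⟨fun σ => z σ c, fun σ => hz σ c, fun s _ => h s c⟩,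
        fun c t => ⟨fun σ => z σ c, fun s _ => h s c, h t c⟩⟩
    · rintro ⟨h, h'⟩
      choose μ hμ0 hμ using h
      refine ⟨fun σ c => μ c σ, fun σ c => hμ0 c σ, fun t c => ?_⟩
      obtain ⟨μ', h2, h3⟩ := h' c t
      exact tr c (μ c) μ' t (hμ c) h2 h3
  · rintro ⟨z', h'⟩ z h t c
    exact tr c (fun σ => z σ c) (fun σ => z' σ c) t (fun s hs => h s hs c) (fun s _ => h' s c) (h' t c)

end Pool.Agent.Results.MP_4c60d4_nt.FewWeightsAtATime
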